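import Pool.Agent.N688.NC.Quad

/-!
# Gaps between consecutive primes of the form `n² - A`: Bohr sets and all multiples, for almost all `A`

Which numbers occur as gaps between consecutive integers `n` for which `n² - A` is a prime? For no single `A` is it
known that there are infinitely many such `n`. For almost all `A` the following is proved here about the `n` in short
windows near `√A`.

For all `k, s` and `ε > 0` there are `B, d, H₀` and `ρ, δ, κ > 0` such that for all `H ≥ H₀`, `C`, `η > 0`, all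
`X ≥ X₀` and EVERY finite set `W` of integers `0 ≤ J ≤ (log X)^C`, all but at most `η X` of the integers
`1 ≤ A ≤ X` have the following property: there is a Bohr set `𝓑 ⊆ [-H, H]` of rank at most `d` and radius at least
`ρ`, with at least `δ H` elements, such that for all but `ε |𝓑|` of the `b ∈ 𝓑` and for ALL the multiples `j |b|`,
`1 ≤ j ≤ s`, the following holds for a positive proportion `κ` of all the patterns `y_0 < y_1 < ⋯ < y_(k+1)` in
`[0, H)` with `y_1 - y_0 = j |b|`: for a positive proportion `κ` of the windows `J ∈ W` there is an integer `n` with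
`√A + J < n ≤ √A + J + (log X)^B` such that for the integers `y_0 ≤ z ≤ y_(k+1)` the number `(n + z)² - A` is a
prime if and only if `z` is one of the `y_i`. So the `k + 2` primes `(n + y_i)² - A` are CONSECUTIVE primes of the
form `t² - A`, and `j |b|` is exactly the gap between the first two of the `t`.

In particular (`k = 0`): for almost all `A` almost all the elements `b` of a Bohr set have the property that every
one of `b, 2 b, …, s b` is a gap between consecutive prime values of `n² - A`, in a positive proportion of all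
windows of length a power of `log X`, however the windows are chosen.

Method. (1) helper913's theorem on clusters of primes `n² - A` (`MP_391708_nt.BoundedClusters`) for one class of
`(s, r)`, `A = s² + r`, modulo the small primes, is used for a PRESCRIBED class of the positions `n`
(`Pool.Agent.N688.NC.class_thm2`); (2) new: for almost all `A` there are different small primes `q_t`, `t < H`,
modulo which `A` has a square root that allows one to make `(n + t)² - A` divisible by `q_t` and none of the other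
`(n + h)² - A` (`card_Bd`, `kill_family`, `exists_i0k`), so that all the shifts outside a given set `F` of `K`
shifts are killed and the primes found among the shifts of `F` are consecutive primes of the form `t² - A`
(`pointwise2`, `quadC`); (3) pigeonhole over the windows (`Pool.Agent.N688.NA.common`); (4) a clique argument with
extensions (`Pool.Agent.N688.FB.main2`) and the passage from dense sets with few poor differences to Bohr sets and
all multiples (`Pool.Agent.N646.AC.returnsZ`, helper646).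
-/

set_option autoImplicit false

open Filter Finset Topology

namespace Pool.Agent.Results.MP_f1a94e_nt.GapsInBohrSets

open Classical in
/-- The Bohr set of the integers `|b| ≤ H` with `|exp (2 π i θ b) - 1| ≤ τ` for all `θ ∈ Θ`. -/
noncomputable def bohrSet (Θ : Finset ℝ) (τ : ℝ) (H : ℕ) : Finset ℤ :=
  (Icc (-(H : ℤ)) H).filter (fun b => ∀ θ ∈ Θ,
    ‖Complex.exp (2 * Real.pi * Complex.I * θ * b) - 1‖ ≤ τ)

/-- The pattern `y` occurs in the window of `J`: there is an integer `n` in
`(√A + J, √A + J + (log X) ^ B]` for which the primes among the numbers `(n + z) ^ 2 - A`, `y_0 ≤ z ≤ y_(k+1)`, are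
exactly the numbers `(n + y_i) ^ 2 - A`. -/
def Occurs {k : ℕ} (B X A J : ℕ) (y : Fin (k + 2) → ℤ) : Prop :=
  ∃ n : ℕ, √(A : ℝ) + J < n ∧ (n : ℝ) ≤ √(A : ℝ) + J + Real.log X ^ B ∧
    ∀ z : ℤ, y 0 ≤ z → z ≤ y (Fin.last (k + 1)) →
      ((((n : ℤ) + z) ^ 2 - A).toNat.Prime ↔ ∃ i, z = y i)

open Classical in
/-- The number of the windows `J ∈ W` in which the pattern `y` occurs. -/
noncomputable def frequency {k : ℕ} (B X A : ℕ) (W : Finset ℕ) (y : Fin (k + 2) → ℤ) : ℕ :=
  (W.filter (fun J => Occurs B X A J y)).card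

open Classical in
/-- The number of the patterns `y ∈ [0, H) ^ (k + 2)`, `y_0 < ⋯ < y_(k+1)`, with `y_1 - y_0 = b`, which occur in at
least `κ |W|` of the windows. -/
noncomputable def extensions (k B X A : ℕ) (W : Finset ℕ) (κ : ℝ) (H : ℕ) (b : ℤ) : ℕ :=
  ((Fintype.piFinset (fun _ : Fin (k + 2) => Ico 0 (H : ℤ))).filter (fun y =>
    y 1 - y 0 = b ∧ StrictMono y ∧ κ * W.card ≤ (frequency B X A W y : ℝ))).card

open Classical in
/-- There is a Bohr set `𝓑 ⊆ [-H, H]` of rank at most `d` and radius at least `ρ`, with at least `δ H` elements,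
all but the proportion `ε` of which satisfy for all `1 ≤ j ≤ s`: the number of the extensions of `j |b|` is at least
`κ H ^ (k + 1)`. -/
def BohrStructure (k s : ℕ) (ε : ℝ) (B d : ℕ) (ρ δ κ : ℝ) (H X : ℕ) (W : Finset ℕ) (A : ℕ) : Prop :=
  ∃ (Θ : Finset ℝ) (τ : ℝ), Θ.card ≤ d ∧ ρ ≤ τ ∧ τ ≤ 1 ∧ δ * H ≤ (bohrSet Θ τ H).card ∧
    (((bohrSet Θ τ H).filter (fun b => ¬ ∀ j : ℕ, 1 ≤ j → j ≤ s →
      κ * (H : ℝ) ^ (k + 1) ≤ extensions k B X A W κ H (j * |b|))).card : ℝ) ≤
      ε * (bohrSet Θ τ H).card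

/-- the count of the engine -/
theorem loc_le (k H : ℕ) (P Q : (Fin (k + 2) → ℤ) → Prop) [DecidablePred Q] (b : ℤ)
    (h : ∀ y, y 1 - y 0 = b → P y → Q y) :
    Pool.Agent.N688.FB.loc k H P b ≤
      ((Fintype.piFinset (fun _ : Fin (k + 2) => Ico 0 (H : ℤ))).filter Q).card := by
  unfold Pool.Agent.N688.FB.loc
  apply card_le_card
  intro y hy
  simp only [Finset.mem_filter] at hy ⊢
  exact ⟨hy.1, h y hy.2.1 hy.2.2⟩

/-- **Gaps between consecutive primes of the form `n² - A`, for almost all `A`.** -/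
theorem result (k s : ℕ) (ε : ℝ) (hε : 0 < ε) :
    ∃ (B d H₀ : ℕ) (ρ δ κ : ℝ), 0 < ρ ∧ 0 < δ ∧ 0 < κ ∧
      ∀ H : ℕ, H₀ ≤ H → ∀ (C : ℕ) (η : ℝ), 0 < η → ∃ X₀ : ℕ, ∀ X : ℕ, X₀ ≤ X →
      ∀ W : Finset ℕ, (∀ J ∈ W, (J : ℝ) ≤ Real.log X ^ C) →
      ∃ Bad ⊆ Icc 1 X, (Bad.card : ℝ) ≤ η * X ∧
        ∀ A ∈ Icc 1 X, A ∉ Bad → BohrStructure k s ε B d ρ δ κ H X W A := by
  classical
  obtain ⟨K, B, hq⟩ := Pool.Agent.N688.NC.quadC k
  obtain ⟨d, H₀, ρ, δ, κ, hρ, hδ, hκ, hmain⟩ := Pool.Agent.N688.NA.bohr_windows k s K ε hε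
  refine ⟨B, d, H₀, ρ, δ, κ, hρ, hδ, hκ, fun H hH C η hη => ?_⟩
  obtain ⟨X₀, hX₀⟩ := hq H C η hη
  refine ⟨X₀, fun X hX W hW => ?_⟩
  obtain ⟨Bad, hB1, hB2, hB3⟩ := hX₀ X hX W hW
  refine ⟨Bad, hB1, hB2, fun A hA hAB => ?_⟩
  obtain ⟨Θ, τ, h1, h2, h3, h4, h5⟩ := hmain H hH ℕ W
    (fun J y => Pool.Agent.N688.NC.OccC B X A J y) (hB3 A hA hAB)
  refine ⟨Θ, τ, h1, h2, h3, h4, le_trans ?_ h5⟩
  rw [Nat.cast_le]
  apply card_le_card
  intro b hb
  rw [mem_filter] at hb ⊢
  refine ⟨hb.1, fun hall => hb.2 fun j hj1 hj2 => (hall j hj1 hj2).trans ?_⟩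
  rw [Nat.cast_le]
  unfold extensions
  refine loc_le _ _ _ _ _ ?_
  rintro y hy2 ⟨hy3, hy4⟩
  refine ⟨hy2, hy3, hy4.trans ?_⟩
  rw [Nat.cast_le]
  unfold Pool.Agent.N688.NA.freq frequency
  apply card_le_card
  intro J hJ
  rw [mem_filter] at hJ ⊢
  exact hJ

end Pool.Agent.Results.MP_f1a94e_nt.GapsInBohrSets
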