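import Mathlib
import Pool.Agent.N511.LL.Stm
import Pool.Agent.N511.LL.A0
import Pool.Agent.N511.LL.B
import Pool.Agent.N511.LL.C0
import Pool.Agent.N511.LL.D0
import Pool.Agent.N511.LL.E0
import Pool.Agent.N511.LL.F0
import Pool.Agent.N511.LL.F1
import Pool.Agent.N511.LL.F2
import Pool.Agent.N511.LL.G0
import Pool.Agent.N511.LL.M0
import Pool.Agent.N511.LL.CR0
import Pool.Agent.N511.LL.H13
import Pool.Agent.N511.LL.H24
import Pool.Agent.N511.LL.I0
import Pool.Agent.N511.LL.J0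

/-!
# Primes of the form `t² + a` for all `a ≤ A` at once: the limit law of their numbers

Let `P_a(N)` be the number of `1 ≤ t ≤ N` with `t² + a` prime and `h_a` its Hardy-Littlewood constant (the product of
`1 - (-a/p) / (p - 1)` over the odd primes). The ratios `P_a(N) / ((1/2) ∫_2^N dt / log t)`, `a ≤ A`, have
a limit law with distribution function `G` for `N → ∞`, uniformly for all `A` with
`N^(5/6 + ε) ≤ A ≤ N`. It is the law of the constants `h_a`, as the conjecture predicts. `G` is continuous, `G = 0` on `(-∞, 0]`, strictly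
increasing on `[0, ∞)` (full support), and both tails are double exponential with the exact constants:
`log log 1 / (1 - G(t)) ~ 2 e^(-γ) t` and `log log 1 / G(1/t) ~ 2 C₂ e^(-γ) t` for `t → ∞`, where
`C₂ = ∏ (1 - 1 / (p - 1)²)` is the constant of the twin primes.

Proof. Truncated products over the classes modulo `Q = ∏_{3 ≤ p ≤ y} p`; second moment of the tail of the
product (Gauss sums); no concentration; all sign patterns; exponential moments for the upper bounds of the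
tails and the choice of all signs up to `p ≤ exp(c t)` for the lower bounds. The prime counts are compared
with the truncated products by the theorem of helper792 (the hand-in `MP_a1177c_nt.ThinConstantTerms`).
-/

set_option autoImplicit false

namespace Pool.Agent.Results.MP_f1a94e_nt.LimitLaw

open Finset Filter Topology
open Classical in
section

/-- `P_a(N)`: the number of `1 ≤ n ≤ N` with `n² + a` prime -/
def P (a N : ℕ) : ℕ := #((Icc 1 N).filter (fun n : ℕ => (n ^ 2 + a).Prime))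

/-- the product of `h_a` over the odd primes up to `X` -/
noncomputable def hprod (a X : ℕ) : ℝ :=
  ∏ p ∈ (Icc 3 X).filter Nat.Prime, (1 - (jacobiSym (-(a : ℤ)) p : ℝ) / ((p : ℝ) - 1))

/-- **Limit law of the number of primes `n² + a` in thin families.** There are a function `G` and the
constant `C2 = ∏_{p > 2} (1 - 1 / (p - 1)²)` such that: `G` is continuous, zero on `(-∞, 0]`, strictly
increasing on `[0, ∞)` and tends to `1`; `log (-log (1 - G t)) ~ 2 e^(-γ) t` and
`log (-log (G (1 / t))) ~ 2 C2 e^(-γ) t` for `t → ∞`; for every `t` the proportion of the `a ≤ X` for which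
`h_a` exists and `h_a ≤ t` tends to `G t`; and for all `ε, η > 0`, all large `N`, all `A` with
`N^(5/6 + ε) ≤ A ≤ N` and all `t` the proportion of the `1 ≤ a ≤ A` with
`P_a(N) ≤ t (1/2) ∫_2^N du / log u` differs from `G t` by at most `η`. -/
theorem result : ∃ (G : ℝ → ℝ) (C2 : ℝ), Continuous G ∧ (∀ t ≤ 0, G t = 0) ∧ StrictMonoOn G (Set.Ici 0) ∧
    Tendsto G atTop (𝓝 1) ∧
    Tendsto (fun y : ℕ => ∏ p ∈ (Icc 3 y).filter Nat.Prime, (1 - 1 / ((p : ℝ) - 1) ^ 2)) atTop (𝓝 C2) ∧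
    Tendsto (fun t : ℝ => Real.log (-Real.log (1 - G t)) / t) atTop
      (𝓝 (2 * Real.exp (-Real.eulerMascheroniConstant))) ∧
    Tendsto (fun t : ℝ => Real.log (-Real.log (G (1 / t))) / t) atTop
      (𝓝 (2 * C2 * Real.exp (-Real.eulerMascheroniConstant))) ∧
    (∀ t : ℝ, Tendsto (fun X : ℕ => (#((Icc 1 X).filter (fun a : ℕ =>
      ∃ h : ℝ, Tendsto (hprod a) atTop (𝓝 h) ∧ h ≤ t)) : ℝ) / X) atTop (𝓝 (G t))) ∧
    ∀ ε η : ℝ, 0 < ε → 0 < η → ∃ N0 : ℕ, ∀ N : ℕ, N0 ≤ N → ∀ A : ℕ, (N : ℝ) ^ (5 / 6 + ε) ≤ A → A ≤ N →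
      ∀ t : ℝ,
        |(#((Icc 1 A).filter (fun a : ℕ =>
          (P a N : ℝ) ≤ t * (1 / 2 * ∫ u in (2 : ℝ)..N, 1 / Real.log u))) : ℝ) / A - G t| ≤ η :=
  have hD : Pool.Agent.N511.LL.D0 := Pool.Agent.N511.LL.d0 Pool.Agent.N511.LL.a0 Pool.Agent.N511.LL.b2 Pool.Agent.N511.LL.c0
  have hF : Pool.Agent.N511.LL.F0 := Pool.Agent.N511.LL.f0 Pool.Agent.N511.LL.f1 Pool.Agent.N511.LL.f2 Pool.Agent.N511.LL.b2
    Pool.Agent.N511.LL.c0
  Pool.Agent.N511.LL.j0 Pool.Agent.N511.LL.a0 Pool.Agent.N511.LL.c0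
    (Pool.Agent.N511.LL.e0 Pool.Agent.N511.LL.a0 Pool.Agent.N511.LL.c0) hD
    (Pool.Agent.N511.LL.g0 Pool.Agent.N511.LL.a0 Pool.Agent.N511.LL.b2 Pool.Agent.N511.LL.c0 hD hF)
    Pool.Agent.N511.LL.m0
    (Pool.Agent.N511.LL.H13.h1 Pool.Agent.N511.LL.b2 Pool.Agent.N511.LL.c0 Pool.Agent.N511.LL.m0
      Pool.Agent.N511.LL.cr0)
    (Pool.Agent.N511.LL.H24.h2 Pool.Agent.N511.LL.cr0 Pool.Agent.N511.LL.m0)
    (Pool.Agent.N511.LL.H13.h3 Pool.Agent.N511.LL.b2 Pool.Agent.N511.LL.c0 Pool.Agent.N511.LL.cr0)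
    (Pool.Agent.N511.LL.H24.h4 Pool.Agent.N511.LL.cr0 Pool.Agent.N511.LL.m0)
    (Pool.Agent.N511.LL.i0 Pool.Agent.N511.LL.b2)

end

end Pool.Agent.Results.MP_f1a94e_nt.LimitLaw
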