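import Pool.Agent.N782.GN.All2

/-!
# The Hardy–Littlewood formula for `x² + 1` at the rational numbers `x` with denominator `l`, for almost all `l`

For almost all denominators `l ≤ L` the number of the rational numbers `0 < x ≤ X` with denominator `l` for which the numerator
of `x² + 1` is a prime is given by the formula of Hardy and Littlewood, uniformly for all `X` between `L ^ ε` and
`L ^ (1 / 2 - ε)`.

Proof (project GN; `Pool.Agent.N782.GN.c_main`): for `M ^ (2 / 3 + ε) ≤ L ≤ M ^ (1 - ε)`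
`∑_{l ≤ L} |∑_{m ≤ M} Λ(l² + m²) - M 𝔖(l)| ≪ L M (log M) ^ (-A)`, the theorem of Fouvry and Iwaniec (there `L = M`) for short
ranges of `l`: Vaughan's identity in `ℤ[i]`; linear sums of level `L M ^ (1 - ε)` by the large sieve for the roots of
`ν² ≡ -1`; bilinear sums by the dispersion method, where the pairs `(w₁, w₂)` have a small determinant, so that the Moebius
function of `ℤ[i]` in almost all sectors of width `R ^ (-1 + ε)` is needed: Vinogradov's method for the sums of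
`exp (i (k arg z - 2 τ log |z|))` over lines, and Siegel's theorem for the characters.

Authors of the parts: helpers 704, 864, 27, 531, 866, 855, 8, 7, 391, 277, 458, 157, 106, 56, 946, 487, 402, 755, 546, 407,
494, 868, 954, 521 and 782.
-/

set_option autoImplicit false

namespace Pool.Agent.Results.MP_f1a94e_nt.RationalArguments

open Finset Filter Topology

/-- The partial products of the constant `C` of the problem: over the odd primes `p ≤ z`. -/
noncomputable def partialC (z : ℕ) : ℝ :=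
  ∏ p ∈ (Icc 3 z).filter Nat.Prime, (1 - (-1 : ℝ) ^ ((p - 1) / 2) / ((p : ℝ) - 1))

/-- The factor by which the constant for the denominator `l` differs from `C`: the factors of the product `C` that belong to
the odd primes `p` dividing `l` are taken out. -/
noncomputable def factor (l : ℕ) : ℝ :=
  ∏ p ∈ l.primeFactors.filter (fun p => p ≠ 2), (1 - (-1 : ℝ) ^ ((p - 1) / 2) / ((p : ℝ) - 1))⁻¹

/-- The number of the rational numbers `0 < x ≤ X` with denominator `l` (in lowest terms) for which the numerator of `x² + 1`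
is a prime. For `l = 1` these are the positive integers `m ≤ X` with `m² + 1` prime. -/
noncomputable def count (l : ℕ) (X : ℝ) : ℕ :=
  {x : ℚ | 0 < x ∧ (x : ℝ) ≤ X ∧ x.den = l ∧ (x ^ 2 + 1).num.natAbs.Prime}.ncard

/-- The conclusion for the denominator `l`: for all real `X` from `L ^ ε` to `L ^ (1 / 2 - ε)`
`|count l X - (1 / 2) C (factor l) ∫_2^(l X) dt / log t| ≤ l X / (log L) ^ A`. -/
def Good (C ε : ℝ) (A : ℕ) (L : ℝ) (l : ℕ) : Prop :=
  ∀ X : ℝ, L ^ ε ≤ X → X ≤ L ^ (1 / 2 - ε) →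
    |(count l X : ℝ) - 1 / 2 * (C * factor l) * ∫ t in (2 : ℝ)..(l * X), 1 / Real.log t| ≤ l * X / Real.log L ^ A

open Classical in
/-- The number of the denominators `1 ≤ l ≤ L` for which the conclusion fails. -/
noncomputable def exceptions (C ε : ℝ) (A : ℕ) (L : ℝ) : ℕ :=
  ((Icc 1 ⌊L⌋₊).filter (fun l => ¬ Good C ε A L l)).card

/-- For `x = m / l` in lowest terms the numerator of `x² + 1` is `l² + m²`. -/
theorem num_eq (m l : ℕ) (hl : 0 < l) (hc : Nat.Coprime m l) :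
    (((m : ℚ) / l) ^ 2 + 1).num = ((l ^ 2 + m ^ 2 : ℕ) : ℤ) := by
  have h1 : ((m : ℚ) / l) ^ 2 + 1 = (((l ^ 2 + m ^ 2 : ℕ) : ℤ) : ℚ) / (((l ^ 2 : ℕ) : ℤ) : ℚ) := by
    have : (l : ℚ) ≠ 0 := by exact_mod_cast hl.ne'
    push_cast
    field_simp
    ring
  rw [h1]
  apply Rat.num_div_eq_of_coprime
  · exact_mod_cast pow_pos hl 2
  · rw [Int.natAbs_natCast, Int.natAbs_natCast, Nat.coprime_self_add_left]
    exact Nat.Coprime.pow 2 2 hc

theorem coprime_of_prime (m l : ℕ) (h : (l ^ 2 + m ^ 2).Prime) : Nat.Coprime m l := by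
  by_contra hc
  obtain ⟨q, hq, hq1, hq2⟩ := Nat.Prime.not_coprime_iff_dvd.1 hc
  have h1 : q ^ 2 ∣ l ^ 2 + m ^ 2 := dvd_add (pow_dvd_pow_of_dvd hq2 2) (pow_dvd_pow_of_dvd hq1 2)
  have h2 : q ∣ l ^ 2 + m ^ 2 := (dvd_pow_self q two_ne_zero).trans h1
  have h3 : q = l ^ 2 + m ^ 2 := (Nat.prime_dvd_prime_iff_eq hq h).1 h2
  rw [← h3] at h1
  have h4 := Nat.le_of_dvd hq.pos h1
  have h5 := hq.two_le
  nlinarith

theorem count_eq (l : ℕ) (hl : 0 < l) (X : ℝ) :
    (count l X : ℝ) = Pool.Agent.N782.GN.PP (fun _ => 1) l ⌊(l : ℝ) * X⌋₊ := by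
  classical
  have hlR : (0 : ℝ) < l := by exact_mod_cast hl
  have hlQ : (0 : ℚ) < l := by exact_mod_cast hl
  have h1 : {x : ℚ | 0 < x ∧ (x : ℝ) ≤ X ∧ x.den = l ∧ (x ^ 2 + 1).num.natAbs.Prime} =
      (fun m : ℕ => (m : ℚ) / l) '' (((Icc 1 ⌊(l : ℝ) * X⌋₊).filter (fun m => (l ^ 2 + m ^ 2).Prime) : Finset ℕ) : Set ℕ) := by
    ext x
    simp only [Set.mem_ofPred_eq, Set.mem_image, coe_filter, mem_Icc]
    constructor
    · rintro ⟨h0, hX, hd, hp⟩
      have hn : 0 < x.num := Rat.num_pos.2 h0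
      obtain ⟨m, hm⟩ : ∃ m : ℕ, x.num = m := ⟨x.num.toNat, (Int.toNat_of_nonneg hn.le).symm⟩
      have hx : x = (m : ℚ) / l := by
        conv_lhs => rw [← Rat.num_div_den x]
        rw [hm, hd]
        simp
      have hc : Nat.Coprime m l := by
        have := x.reduced
        rw [hm, hd, Int.natAbs_natCast] at this
        exact this
      have hm0 : 1 ≤ m := by
        rw [hm] at hn
        exact_mod_cast hn
      refine ⟨m, ⟨⟨hm0, ?_⟩, ?_⟩, hx.symm⟩
      · apply Nat.le_floor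
        rw [hx] at hX
        push_cast at hX
        rw [div_le_iff₀ hlR] at hX
        linarith [mul_comm (l : ℝ) X]
      · rw [hx, num_eq m l hl hc, Int.natAbs_natCast] at hp
        exact hp
    · rintro ⟨m, ⟨⟨hm1, hm2⟩, hp⟩, rfl⟩
      have hc := coprime_of_prime m l hp
      have hmQ : (0 : ℚ) < m := by exact_mod_cast hm1
      refine ⟨div_pos hmQ hlQ, ?_, ?_, ?_⟩
      · push_cast
        rw [div_le_iff₀ hlR]
        have h2 := (Nat.le_floor_iff' (by omega)).1 hm2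
        linarith [mul_comm (l : ℝ) X]
      · have h3 := Rat.den_div_eq_of_coprime (a := (m : ℤ)) (b := (l : ℤ)) (by exact_mod_cast hl)
          (by rw [Int.natAbs_natCast, Int.natAbs_natCast]; exact hc)
        have h4 : (((m : ℤ) : ℚ) / ((l : ℤ) : ℚ)).den = l := by exact_mod_cast h3
        simpa using h4
      · rw [num_eq m l hl hc, Int.natAbs_natCast]
        exact hp
  unfold count
  rw [h1, Set.ncard_image_of_injective, Set.ncard_coe_finset]
  · unfold Pool.Agent.N782.GN.PP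
    rw [card_filter]
    push_cast
    refine sum_congr rfl fun n _ => ?_
    rw [one_mul]
  · intro a b hab
    have h2 : (a : ℚ) / l = (b : ℚ) / l := hab
    rw [div_left_inj' hlQ.ne'] at h2
    exact_mod_cast h2

/-- The factor of the product that belongs to an odd prime. -/
theorem chi_eq (p : ℕ) (hp : p.Prime) (h3 : 3 ≤ p) :
    ((ZMod.χ₄ (p : ZMod 4) : ℤ) : ℝ) = (-1 : ℝ) ^ ((p - 1) / 2) := by
  have hodd : p % 2 = 1 := hp.eq_two_or_odd.resolve_left (by omega)
  rw [ZMod.χ₄_eq_neg_one_pow hodd]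
  have : (p - 1) / 2 = p / 2 := by omega
  rw [this]
  push_cast
  rfl

theorem factor_ne (p : ℕ) (h3 : 3 ≤ p) : (1 - (-1 : ℝ) ^ ((p - 1) / 2) / ((p : ℝ) - 1)) ≠ 0 := by
  have hp : (3 : ℝ) ≤ p := by exact_mod_cast h3
  rcases neg_one_pow_eq_or ℝ ((p - 1) / 2) with h | h <;> rw [h]
  · have : (1 : ℝ) / ((p : ℝ) - 1) < 1 := by
      rw [div_lt_one (by linarith)]
      linarith
    linarith
  · have : (-1 : ℝ) / ((p : ℝ) - 1) < 0 := div_neg_of_neg_of_pos (by norm_num) (by linarith)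
    linarith

theorem pp_one (z : ℕ) : Pool.Agent.N782.GN.pp 1 z = partialC z := by
  unfold Pool.Agent.N782.GN.pp partialC
  have h1 : (Icc 3 z).filter (fun p : ℕ => p.Prime ∧ ¬ (p : ℤ) ∣ 1) = (Icc 3 z).filter Nat.Prime := by
    apply filter_congr
    intro p hp
    constructor
    · exact fun h => h.1
    · intro h
      refine ⟨h, fun hd => ?_⟩
      have := Int.natAbs_dvd_natAbs.2 hd
      rw [Int.natAbs_natCast, Int.natAbs_one, Nat.dvd_one] at this
      exact h.one_lt.ne' this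
  rw [h1]
  refine prod_congr rfl fun p hp => ?_
  rw [mem_filter, mem_Icc] at hp
  rw [chi_eq p hp.2 hp.1.1]

theorem pp_mul (l z : ℕ) (hl : 0 < l) (hz : l ≤ z) : Pool.Agent.N782.GN.pp l z = partialC z * factor l := by
  unfold Pool.Agent.N782.GN.pp partialC factor
  have h1 : (Icc 3 z).filter Nat.Prime = (Icc 3 z).filter (fun p : ℕ => p.Prime ∧ ¬ (p : ℤ) ∣ (l : ℤ)) ∪
      l.primeFactors.filter (fun p => p ≠ 2) := by
    ext p
    simp only [mem_filter, mem_Icc, mem_union, Nat.mem_primeFactors, Int.natCast_dvd_natCast]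
    constructor
    · rintro ⟨⟨h3, hz'⟩, hp⟩
      by_cases hd : p ∣ l
      · exact Or.inr ⟨⟨hp, hd, hl.ne'⟩, by omega⟩
      · exact Or.inl ⟨⟨h3, hz'⟩, hp, hd⟩
    · rintro (⟨⟨h3, hz'⟩, hp, -⟩ | ⟨⟨hp, hd, -⟩, h2⟩)
      · exact ⟨⟨h3, hz'⟩, hp⟩
      · have := hp.two_le
        exact ⟨⟨by omega, (Nat.le_of_dvd hl hd).trans hz⟩, hp⟩
  have hdis : Disjoint ((Icc 3 z).filter (fun p : ℕ => p.Prime ∧ ¬ (p : ℤ) ∣ (l : ℤ)))
      (l.primeFactors.filter (fun p => p ≠ 2)) := by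
    rw [disjoint_left]
    intro p hp hp'
    rw [mem_filter] at hp hp'
    exact hp.2.2 (Int.natCast_dvd_natCast.2 (Nat.dvd_of_mem_primeFactors hp'.1))
  rw [h1, prod_union hdis, mul_assoc, ← prod_mul_distrib]
  have h2 : ∏ p ∈ l.primeFactors.filter (fun p => p ≠ 2), ((1 - (-1 : ℝ) ^ ((p - 1) / 2) / ((p : ℝ) - 1)) *
      (1 - (-1 : ℝ) ^ ((p - 1) / 2) / ((p : ℝ) - 1))⁻¹) = 1 := by
    apply prod_eq_one
    intro p hp
    rw [mem_filter, Nat.mem_primeFactors] at hp
    have := hp.1.1.two_le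
    exact mul_inv_cancel₀ (factor_ne p (by omega))
  rw [h2, mul_one]
  refine prod_congr rfl fun p hp => ?_
  rw [mem_filter, mem_Icc] at hp
  rw [chi_eq p hp.2.1 hp.1.1]

/-- The constant for the denominator `l`. -/
theorem SS_eq (l : ℕ) (hl : 0 < l) : Pool.Agent.N782.GN.SS l = Pool.Agent.N782.GN.SS 1 * factor l := by
  obtain ⟨h1, -⟩ := Pool.Agent.N782.GN.c_ssl (l : ℤ) (by omega)
  obtain ⟨h2, -⟩ := Pool.Agent.N782.GN.c_ssl 1 (by omega)
  have h3 := h2.mul_const (factor l)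
  refine tendsto_nhds_unique (h1.congr' ?_) h3
  filter_upwards [eventually_ge_atTop l] with z hz
  rw [pp_mul l z hl hz, pp_one]

theorem ev_log (δ : ℝ) (hδ : 0 < δ) (n : ℕ) : ∃ L₁ : ℝ, ∀ L : ℝ, L₁ ≤ L → Real.log L ^ n ≤ L ^ δ := by
  have h := isLittleO_log_rpow_rpow_atTop (n : ℝ) hδ
  obtain ⟨L₁, h1⟩ := eventually_atTop.1 (h.bound one_pos)
  refine ⟨max L₁ 1, fun L hL => ?_⟩
  have h2 := h1 L ((le_max_left _ _).trans hL)
  have hL1 : 1 ≤ L := (le_max_right _ _).trans hL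
  rw [Real.rpow_natCast, one_mul, Real.norm_of_nonneg (pow_nonneg (Real.log_nonneg hL1) n),
    Real.norm_of_nonneg (Real.rpow_nonneg (by linarith) δ)] at h2
  exact h2

/-- **The Hardy–Littlewood formula for `x² + 1` at the rational numbers `x` with denominator `l`, for almost all `l`.**
The product `C` of the problem converges to a positive number, and for all `ε > 0`, `A` and all large `L`, all but at most
`L / (log L) ^ A` of the denominators `1 ≤ l ≤ L` satisfy the formula, for all real `X` from `L ^ ε` to `L ^ (1 / 2 - ε)`. -/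
theorem result : ∃ C : ℝ, 0 < C ∧ Tendsto partialC atTop (𝓝 C) ∧ ∀ (ε : ℝ) (A : ℕ), 0 < ε →
    ∃ L₀ : ℝ, ∀ L : ℝ, L₀ ≤ L → (exceptions C ε A L : ℝ) ≤ L / Real.log L ^ A := by
  classical
  obtain ⟨hC1, hC2⟩ := Pool.Agent.N782.GN.c_ssl 1 (by omega)
  refine ⟨Pool.Agent.N782.GN.SS 1, hC2, hC1.congr fun z => pp_one z, fun ε A hε => ?_⟩
  obtain ⟨L₀, h0, h⟩ := Pool.Agent.N782.GN.almost_all Pool.Agent.N782.GN.c_main Pool.Agent.N782.GN.c_ssl (ε / 2) (A + 1)
    (by positivity)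
  obtain ⟨L₁, h1⟩ := ev_log (ε / 2) (by positivity) (A + 1)
  refine ⟨max (max L₀ L₁) (Real.exp 2), fun L hL => ?_⟩
  have hLL0 : L₀ ≤ L := ((le_max_left _ _).trans (le_max_left _ _)).trans hL
  have hLL1 : L₁ ≤ L := ((le_max_right _ _).trans (le_max_left _ _)).trans hL
  have hLe : Real.exp 2 ≤ L := (le_max_right _ _).trans hL
  have hL0 : 0 < L := (Real.exp_pos 2).trans_le hLe
  have hL3 : 3 ≤ L := h0.trans hLL0
  have hlog : 2 ≤ Real.log L := (Real.le_log_iff_exp_le hL0).2 hLe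
  have hlog0 : 0 < Real.log L := by linarith
  have hb := h L hLL0
  have hc := h1 L hLL1
  set Bad := (Icc 1 ⌊L⌋₊).filter (fun l : ℕ => ¬ ∀ u : ℝ, L ^ (1 + ε / 2) ≤ u → u ≤ L ^ (3 / 2 - ε / 2) →
      |Pool.Agent.N782.GN.PP (fun _ => 1) l ⌊u⌋₊ - Pool.Agent.N782.GN.SS l * ∫ t in (2 : ℝ)..u, 1 / (2 * Real.log t)| ≤
        u / (Real.log L) ^ (A + 1)) with hBad
  have hsub : (Icc 1 ⌊L⌋₊).filter (fun l => ¬ Good (Pool.Agent.N782.GN.SS 1) ε A L l) ⊆
      Icc 1 ⌊L ^ (1 - ε / 2)⌋₊ ∪ Bad := by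
    intro l hl
    rw [mem_union]
    by_contra hcon
    rw [not_or] at hcon
    obtain ⟨hs, hg⟩ := hcon
    rw [mem_filter] at hl
    obtain ⟨hlI, hng⟩ := hl
    have hl1 : 1 ≤ l := (mem_Icc.1 hlI).1
    have hlL : (l : ℝ) ≤ L := (Nat.le_floor_iff hL0.le).1 (mem_Icc.1 hlI).2
    have hlR : (0 : ℝ) < l := by exact_mod_cast hl1
    have hbig : L ^ (1 - ε / 2) < l := by
      by_contra hh
      exact hs (mem_Icc.2 ⟨hl1, Nat.le_floor (not_lt.1 hh)⟩)
    have hgood : ∀ u : ℝ, L ^ (1 + ε / 2) ≤ u → u ≤ L ^ (3 / 2 - ε / 2) →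
      |Pool.Agent.N782.GN.PP (fun _ => 1) l ⌊u⌋₊ - Pool.Agent.N782.GN.SS l * ∫ t in (2 : ℝ)..u, 1 / (2 * Real.log t)| ≤
        u / (Real.log L) ^ (A + 1) := by
      by_contra hh
      exact hg (mem_filter.2 ⟨hlI, hh⟩)
    apply hng
    intro X hX1 hX2
    have hX0 : 0 < X := (Real.rpow_pos_of_pos hL0 ε).trans_le hX1
    have hu1 : L ^ (1 + ε / 2) ≤ l * X := by
      calc L ^ (1 + ε / 2) = L ^ (1 - ε / 2) * L ^ ε := by
            rw [← Real.rpow_add hL0]
            congr 1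
            ring
        _ ≤ l * X := mul_le_mul hbig.le hX1 (Real.rpow_nonneg hL0.le _) hlR.le
    have hu2 : l * X ≤ L ^ (3 / 2 - ε / 2) := by
      calc l * X ≤ L * L ^ (1 / 2 - ε) := mul_le_mul hlL hX2 hX0.le hL0.le
        _ = L ^ (3 / 2 - ε) := by
            nth_rewrite 1 [← Real.rpow_one L]
            rw [← Real.rpow_add hL0]
            congr 1
            ring
        _ ≤ L ^ (3 / 2 - ε / 2) := Real.rpow_le_rpow_of_exponent_le (by linarith) (by linarith)
    have h3 := hgood (l * X) hu1 hu2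
    have h4 : Pool.Agent.N782.GN.SS l * ∫ t in (2 : ℝ)..(l * X), 1 / (2 * Real.log t) =
        1 / 2 * (Pool.Agent.N782.GN.SS 1 * factor l) * ∫ t in (2 : ℝ)..(l * X), 1 / Real.log t := by
      have h5 : ∫ t in (2 : ℝ)..(l * X), 1 / (2 * Real.log t) = 1 / 2 * ∫ t in (2 : ℝ)..(l * X), 1 / Real.log t := by
        rw [← intervalIntegral.integral_const_mul]
        refine intervalIntegral.integral_congr fun t _ => ?_
        exact (one_div_mul_one_div 2 (Real.log t)).symm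
      rw [h5, SS_eq l hl1]
      ring
    rw [count_eq l hl1 X, ← h4]
    refine h3.trans ?_
    have h6 : Real.log L ^ A ≤ Real.log L ^ (A + 1) := pow_le_pow_right₀ (by linarith) (Nat.le_succ A)
    exact div_le_div_of_nonneg_left (mul_pos hlR hX0).le (pow_pos hlog0 A) h6
  have h7 : (((Icc 1 ⌊L ^ (1 - ε / 2)⌋₊ ∪ Bad).card : ℕ) : ℝ) ≤ L ^ (1 - ε / 2) + L / Real.log L ^ (A + 1) := by
    refine le_trans (Nat.cast_le.2 (card_union_le _ _)) ?_
    rw [Nat.card_Icc, Nat.add_sub_cancel, Nat.cast_add]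
    exact add_le_add (Nat.floor_le (Real.rpow_nonneg hL0.le _)) hb
  have h8 : L ^ (1 - ε / 2) ≤ L / Real.log L ^ (A + 1) := by
    rw [le_div_iff₀ (pow_pos hlog0 _)]
    calc L ^ (1 - ε / 2) * Real.log L ^ (A + 1) ≤ L ^ (1 - ε / 2) * L ^ (ε / 2) :=
          mul_le_mul_of_nonneg_left hc (Real.rpow_nonneg hL0.le _)
      _ = L := by
          rw [← Real.rpow_add hL0, sub_add_cancel, Real.rpow_one]
  have h9 : L / Real.log L ^ (A + 1) + L / Real.log L ^ (A + 1) ≤ L / Real.log L ^ A := by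
    have h10 : L / Real.log L ^ (A + 1) = L / Real.log L ^ A / Real.log L := by
      rw [pow_succ, div_div]
    rw [h10, ← add_div, div_le_iff₀ hlog0]
    have h11 : 0 ≤ L / Real.log L ^ A := div_nonneg hL0.le (pow_nonneg hlog0.le A)
    nlinarith
  calc (exceptions (Pool.Agent.N782.GN.SS 1) ε A L : ℝ)
      ≤ (((Icc 1 ⌊L ^ (1 - ε / 2)⌋₊ ∪ Bad).card : ℕ) : ℝ) := by
        unfold exceptions
        exact Nat.cast_le.2 (card_le_card hsub)
    _ ≤ L ^ (1 - ε / 2) + L / Real.log L ^ (A + 1) := h7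
    _ ≤ L / Real.log L ^ (A + 1) + L / Real.log L ^ (A + 1) := by linarith
    _ ≤ L / Real.log L ^ A := h9

end Pool.Agent.Results.MP_f1a94e_nt.RationalArguments
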