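import Pool.Agent.N728.QU.AllG

set_option autoImplicit false

/-!
# Primes `m² + k` for almost all `k` of the form `c - h²`

For every integer `c` with few small prime factors, `|c| ≤ K H²`, and all but at most `ε H` of the `h ≤ H` the number of
the primes `m² + k`, `m ≤ M`, `k = c - h²`, is the number predicted by Hardy and Littlewood, for all `M ≤ K H`
simultaneously.

Proof (`Agent/N728/QU`): `m² - h² + c = u v + c` with `u = m - h`, `v = m + h` (and `c - u v` with `u = h - m`,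
`v = h + m` for `m < h`), so `v ∓ u = 2 h`. Bilinear sums over `c ± u v` with an arbitrary bounded function of `v ∓ u` do
not change if a divisor of `u v`, composed of primes of a suitable range, is moved from `u` to `v`; by the multiplication
table phenomenon of Erdős few multiplicative windows contain such a divisor, and the off-diagonal terms are bounded by two
applications of the Cauchy-Schwarz inequality and the fundamental lemma of the sieve (functions with mean zero on the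
cells (residue class and block)). For the functions constant on the cells the range is shifted, by moving divisors again,
to `u ≤ v / (log v)^C`, where the theorem of Bombieri and Vinogradov at the sharp level applies. All this is uniform in
`c`.
-/

namespace Pool.Agent.Results.MP_f1a94e_nt.ThinFamilyOfConstants

open Finset

/-- `c` has few small prime factors beyond `s₀`: `∑_{p ∣ c, p > s} 1/p ≤ 1/√s` for all `s ≥ s₀`. -/
def Tame (s₀ : ℕ) (c : ℤ) : Prop :=
  c ≠ 0 ∧ ∀ s : ℕ, s₀ ≤ s → ∑ p ∈ c.natAbs.primeFactors.filter (fun p => s < p), 1 / (p : ℝ) ≤ 1 / √(s : ℝ)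

/-- Every fixed `c ≠ 0`, for example `c = 1`, satisfies the condition with `s₀ = |c|`. -/
theorem tame_natAbs (c : ℤ) (h : c ≠ 0) : Tame c.natAbs c := by
  refine ⟨h, fun s hs => ?_⟩
  have h1 : c.natAbs.primeFactors.filter (fun p => s < p) = ∅ := by
    rw [filter_eq_empty_iff]
    intro p hp hsp
    have := Nat.le_of_mem_primeFactors hp
    omega
  rw [h1, sum_empty]
  positivity

/-- The number of the `1 ≤ m ≤ M` with `m² + k` a (positive) prime. -/
def primeCount (k : ℤ) (M : ℕ) : ℕ := ((Icc 1 M).filter (fun m : ℕ => ((m : ℤ) ^ 2 + k).toNat.Prime)).card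

/-- The sum of `1 / log (m² + k)` over the `1 ≤ m ≤ M` with `m² + k ≥ 2`. -/
noncomputable def logSum (k : ℤ) (M : ℕ) : ℝ :=
  ∑ m ∈ (Icc 1 M).filter (fun m : ℕ => 2 ≤ (m : ℤ) ^ 2 + k), 1 / Real.log (((m : ℤ) ^ 2 + k : ℤ) : ℝ)

/-- The number of the solutions of `m² + k ≡ 0` modulo `p`. -/
def omega (k : ℤ) (p : ℕ) : ℕ := ((range p).filter (fun m : ℕ => (p : ℤ) ∣ (m : ℤ) ^ 2 + k)).card

/-- The product of Hardy and Littlewood for `m² + k`, over the primes `p ≤ Z` (the factor at an odd `p` is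
`1 - (-k/p) / (p - 1)`, the factor at `2` is `1`). -/
noncomputable def series (k : ℤ) (Z : ℕ) : ℝ :=
  ∏ p ∈ (Ioc 0 Z).filter Nat.Prime, (1 - (omega k p : ℝ) / p) / (1 - 1 / (p : ℝ))

/-- The conclusion for one `k`: the product is at least `κ`, and the number of primes `m² + k`, `m ≤ M`, is the expected
one up to `δ H / log H`, for all `M ≤ K H`. -/
def Good (κ δ : ℝ) (K H Z : ℕ) (k : ℤ) : Prop :=
  κ ≤ series k Z ∧ ∀ M : ℕ, M ≤ K * H → |(primeCount k M : ℝ) - series k Z * logSum k M| ≤ δ * (H / Real.log H)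

open Classical in
/-- The number of the `1 ≤ h ≤ H` for which the conclusion fails for `k = c - h²`. -/
noncomputable def exceptions (κ δ : ℝ) (c : ℤ) (K H Z : ℕ) : ℕ :=
  ((Icc 1 H).filter (fun h : ℕ => ¬ Good κ δ K H Z (c - (h : ℤ) ^ 2))).card

lemma Vg_eq (c : ℤ) (h m : ℕ) : Pool.Agent.N728.QU.Vg 1 0 1 c h m = (m : ℤ) ^ 2 + (c - (h : ℤ) ^ 2) := by
  unfold Pool.Agent.N728.QU.Vg
  ring

lemma series_eq (c : ℤ) (h Z : ℕ) : series (c - (h : ℤ) ^ 2) Z = Pool.Agent.N728.QU.Sqg 1 0 1 c h Z := by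
  unfold series Pool.Agent.N728.QU.Sqg omega
  simp only [Vg_eq]

lemma adg (c : ℤ) : Pool.Agent.N728.QU.Adg 1 0 c := by
  refine ⟨fun p hp h _ => ?_, fun h => ?_⟩
  · exfalso
    have h1 : (p : ℤ) ∣ 1 := h
    have h2 : p ∣ 1 := by exact_mod_cast h1
    exact hp.one_lt.ne' (Nat.dvd_one.1 h2)
  · norm_num at h

/-- **Theorem.** -/
theorem result (s₀ : ℕ) :
    ∀ ε : ℝ, 0 < ε → ∃ κ : ℝ, 0 < κ ∧ ∀ (δ : ℝ) (K : ℕ), 0 < δ → ∃ Z₀ : ℕ, ∀ A : ℕ, ∃ H₀ : ℕ, ∀ H : ℕ, H₀ ≤ H →
      ∀ (c : ℤ) (Z : ℕ), Tame s₀ c → c.natAbs ≤ K * H ^ 2 → Z₀ ≤ Z → (Z : ℝ) ≤ Real.log H ^ A →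
      (exceptions κ δ c K H Z : ℝ) ≤ ε * H := by
  classical
  intro ε hε
  obtain ⟨κ, hκ, h1⟩ := Pool.Agent.N728.QU.finalGU 1 0 le_rfl s₀ ε hε
  refine ⟨κ, hκ, fun δ K hδ => ?_⟩
  obtain ⟨Z₀, h2⟩ := h1 δ K hδ
  refine ⟨Z₀, fun A => ?_⟩
  obtain ⟨H₀, h3⟩ := h2 A
  refine ⟨H₀, fun H hH c Z hc hcK hZ1 hZ2 => ?_⟩
  have h4 := h3 H hH Z c 1 hc (adg c) (Or.inl rfl) hcK hZ1 hZ2
  refine le_trans (le_of_eq ?_) h4
  unfold exceptions
  congr 2
  apply filter_congr
  intro h hh
  unfold Good primeCount logSum Pool.Agent.N728.QU.cntg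
  rw [series_eq]
  simp only [Vg_eq]

end Pool.Agent.Results.MP_f1a94e_nt.ThinFamilyOfConstants
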